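import Mathlib

namespace Pool.Agent.Results.MP_25be31_al.SolubleCase

/-- `G` has finite special (Mal'cev) rank. -/
def FiniteSpecialRank (G : Type*) [Group G] : Prop :=
  ∃ r : ℕ, ∀ H : Subgroup G, H.FG → ∃ S : Finset G, S.card ≤ r ∧ Subgroup.closure (S : Set G) = H

/-- `I` is isolated: it contains every element with a positive power in it. -/
def IsIsolated {G : Type*} [Group G] (I : Subgroup G) : Prop :=
  ∀ (g : G) (n : ℕ), 0 < n → g ^ n ∈ I → g ∈ I

/-- the isolator of `H`: the smallest isolated subgroup containing `H`. -/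
def isolator {G : Type*} [Group G] (H : Subgroup G) : Subgroup G :=
  sInf {I : Subgroup G | H ≤ I ∧ IsIsolated I}

theorem fin_generate {M : Type*} [AddCommGroup M] {r : ℕ} (hM : Module.rank ℤ M ≤ r) :
    ∃ T : Finset M, ∀ a : M, ∃ n : ℕ, 0 < n ∧ n • a ∈ Submodule.span ℤ (T : Set M) := by
  classical
  obtain ⟨s, hs, hli⟩ := exists_set_linearIndependent_of_isDomain ℤ M
  have hfin : s.Finite := by
    have : Cardinal.mk s < Cardinal.aleph0 := by
      rw [hs]; exact lt_of_le_of_lt hM (Cardinal.natCast_lt_aleph0)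
    exact Cardinal.lt_aleph0_iff_set_finite.mp this
  refine ⟨hfin.toFinset, ?_⟩
  rw [hfin.coe_toFinset]
  intro a
  have h1 : Module.rank ℤ (M ⧸ Submodule.span ℤ s) = 0 := by
    have h2 := rank_quotient_add_rank_of_isDomain (Submodule.span ℤ s)
    have h3 : Module.rank ℤ (Submodule.span ℤ s) = Module.rank ℤ M := by
      rw [← hs]
      exact rank_span_set hli
    rw [h3] at h2
    have h4 : Module.rank ℤ M < Cardinal.aleph0 := lt_of_le_of_lt hM (Cardinal.natCast_lt_aleph0)
    have h5 : Module.rank ℤ (M ⧸ Submodule.span ℤ s) + Module.rank ℤ M = 0 + Module.rank ℤ M := by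
      rw [h2, zero_add]
    exact Cardinal.eq_of_add_eq_add_right h5 h4
  rw [rank_eq_zero_iff] at h1
  obtain ⟨n, hn, hn2⟩ := h1 (Submodule.Quotient.mk a)
  refine ⟨n.natAbs, Int.natAbs_pos.mpr hn, ?_⟩
  rw [← Submodule.Quotient.mk_smul, Submodule.Quotient.mk_eq_zero] at hn2
  rcases Int.natAbs_eq n with h | h
  · rw [h] at hn2
    rwa [natCast_zsmul] at hn2
  · rw [h, neg_smul] at hn2
    have := Submodule.neg_mem _ hn2
    rwa [neg_neg, natCast_zsmul] at this

section
variable {K : Type*} [Group K]

theorem rank_bound {r : ℕ}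
    (hr : ∀ H : Subgroup K, H.FG → ∃ S : Finset K, S.card ≤ r ∧ Subgroup.closure (S : Set K) = H)
    (D : Subgroup K) {Q : Type*} [CommGroup Q] (f : D →* Q) (hf : Function.Surjective f) :
    Module.rank ℤ (Additive Q) ≤ r := by
  classical
  refine rank_le ?_
  intro s hs
  -- lifts
  have hlift : ∀ x : Additive Q, ∃ d : D, f d = Additive.toMul x := fun x => hf _
  choose d hd using hlift
  let T : Finset K := s.image (fun x => (d x : K))
  obtain ⟨S, hSc, hScl⟩ := hr (Subgroup.closure (T : Set K)) ⟨T, rfl⟩
  have hSD : ∀ y ∈ S, y ∈ D := by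
    intro y hy
    have h1 : y ∈ Subgroup.closure (T : Set K) := by
      rw [← hScl]; exact Subgroup.subset_closure hy
    have h2 : Subgroup.closure (T : Set K) ≤ D := by
      rw [Subgroup.closure_le]
      intro z hz
      have hz' : z ∈ T := hz
      rw [Finset.mem_image] at hz'
      obtain ⟨x, _, rfl⟩ := hz'
      exact (d x).2
    exact h2 h1
  let w : Finset (Additive Q) :=
    S.attach.image (fun y => Additive.ofMul (f ⟨y.1, hSD y.1 y.2⟩))
  have hwc : w.card ≤ r := (Finset.card_image_le).trans (by rw [Finset.card_attach]; exact hSc)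
  -- every element of closure S lies in D and its image lies in the span of w
  have key : ∀ y (hy : y ∈ Subgroup.closure (S : Set K)),
      ∀ hyD : y ∈ D, Additive.ofMul (f ⟨y, hyD⟩) ∈ Submodule.span ℤ (w : Set (Additive Q)) := by
    intro y hy
    induction hy using Subgroup.closure_induction with
    | mem y hy =>
      intro hyD
      refine Submodule.subset_span ?_
      rw [Finset.mem_coe, Finset.mem_image]
      exact ⟨⟨y, hy⟩, Finset.mem_attach _ _, rfl⟩
    | one =>
      intro hyD
      have : f ⟨1, hyD⟩ = 1 := map_one f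
      rw [this]
      exact Submodule.zero_mem _
    | mul a b ha hb iha ihb =>
      intro hyD
      have hle : Subgroup.closure (S : Set K) ≤ D := by
        rw [Subgroup.closure_le]; exact fun z hz => hSD z hz
      have e : (⟨a * b, hyD⟩ : D) = ⟨a, hle ha⟩ * ⟨b, hle hb⟩ := rfl
      rw [e, map_mul, ofMul_mul]
      exact Submodule.add_mem _ (iha _) (ihb _)
    | inv a ha iha =>
      intro hyD
      have hle : Subgroup.closure (S : Set K) ≤ D := by
        rw [Subgroup.closure_le]; exact fun z hz => hSD z hz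
      have e : (⟨a⁻¹, hyD⟩ : D) = (⟨a, hle ha⟩ : D)⁻¹ := rfl
      rw [e, map_inv, ofMul_inv]
      exact Submodule.neg_mem _ (iha _)
  have hrange : Set.range (fun i : s => (i : Additive Q)) ≤
      (Submodule.span ℤ ((w : Set (Additive Q))) : Set (Additive Q)) := by
    rintro _ ⟨x, rfl⟩
    have hx : ((d x.1 : D) : K) ∈ Subgroup.closure (S : Set K) := by
      rw [hScl]
      refine Subgroup.subset_closure ?_
      rw [Finset.mem_coe, Finset.mem_image]
      exact ⟨x.1, x.2, rfl⟩
    have h3 := key _ hx (d x.1).2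
    have h4 : (⟨((d x.1 : D) : K), (d x.1).2⟩ : D) = d x.1 := rfl
    rw [h4, hd] at h3
    exact h3
  have h5 := linearIndependent_le_span' (fun i : s => (i : Additive Q)) hs (w : Set (Additive Q)) hrange
  simp at h5
  omega


theorem span_closure {Q : Type*} [CommGroup Q] (T : Finset (Additive Q)) (q : Q)
    (h : Additive.ofMul q ∈ Submodule.span ℤ (T : Set (Additive Q))) :
    q ∈ Subgroup.closure (Additive.ofMul ⁻¹' (T : Set (Additive Q))) := by
  have h1 : Additive.ofMul q ∈ AddSubgroup.closure (T : Set (Additive Q)) := by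
    rw [← Submodule.mem_toAddSubgroup, Submodule.span_int_eq_addSubgroupClosure] at h
    exact h
  have key : ∀ x : Additive Q, x ∈ AddSubgroup.closure (T : Set (Additive Q)) →
      Additive.toMul x ∈ Subgroup.closure (Additive.ofMul ⁻¹' (T : Set (Additive Q))) := by
    intro x hx
    induction hx using AddSubgroup.closure_induction with
    | mem x hx => exact Subgroup.subset_closure hx
    | zero => exact Subgroup.one_mem _
    | add a b _ _ iha ihb => exact Subgroup.mul_mem _ iha ihb
    | neg a _ iha => exact Subgroup.inv_mem _ iha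
  exact key _ h1

/-- a finite set in a subgroup `D` generating `D` up to roots modulo `[D,D]` -/
theorem root_generate {r : ℕ}
    (hr : ∀ H : Subgroup K, H.FG → ∃ S : Finset K, S.card ≤ r ∧ Subgroup.closure (S : Set K) = H)
    (D : Subgroup K) :
    ∃ T : Finset K, (∀ t ∈ T, t ∈ D) ∧ ∀ g ∈ D, ∃ n : ℕ, 0 < n ∧
      ∃ h ∈ Subgroup.closure (T : Set K), ∃ k ∈ ⁅D, D⁆, g ^ n = h * k := by
  classical
  have hrank := rank_bound hr D (Abelianization.of (G := D)) (Quotient.mk_surjective)
  obtain ⟨T0, hT0⟩ := fin_generate hrank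
  have hlift : ∀ x : Additive (Abelianization D), ∃ d : D,
      Abelianization.of d = Additive.toMul x := fun x => Quotient.mk_surjective _
  choose d hd using hlift
  refine ⟨T0.image (fun x => (d x : K)), ?_, ?_⟩
  · intro t ht
    rw [Finset.mem_image] at ht
    obtain ⟨x, _, rfl⟩ := ht
    exact (d x).2
  · intro g hg
    obtain ⟨n, hn, hspan⟩ := hT0 (Additive.ofMul (Abelianization.of (⟨g, hg⟩ : D)))
    refine ⟨n, hn, ?_⟩
    rw [← ofMul_pow, ← map_pow] at hspan
    have h1 := span_closure T0 _ hspan
    have key : ∀ q : Abelianization D,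
        q ∈ Subgroup.closure (Additive.ofMul ⁻¹' (T0 : Set (Additive (Abelianization D)))) →
        ∃ e : D, Abelianization.of e = q ∧
          (e : K) ∈ Subgroup.closure ((T0.image (fun x => (d x : K)) : Finset K) : Set K) := by
      intro q hq
      induction hq using Subgroup.closure_induction with
      | mem q hq =>
        refine ⟨d (Additive.ofMul q), hd _, Subgroup.subset_closure ?_⟩
        rw [Finset.mem_coe, Finset.mem_image]
        exact ⟨Additive.ofMul q, hq, rfl⟩
      | one => exact ⟨1, map_one _, Subgroup.one_mem _⟩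
      | mul a b _ _ iha ihb =>
        obtain ⟨e1, h1, h1'⟩ := iha
        obtain ⟨e2, h2, h2'⟩ := ihb
        exact ⟨e1 * e2, by rw [map_mul, h1, h2], Subgroup.mul_mem _ h1' h2'⟩
      | inv a _ iha =>
        obtain ⟨e1, h1, h1'⟩ := iha
        exact ⟨e1⁻¹, by rw [map_inv, h1], Subgroup.inv_mem _ h1'⟩
    obtain ⟨e, he, heT⟩ := key _ h1
    have h2 : Abelianization.of (e⁻¹ * (⟨g, hg⟩ : D) ^ n) = 1 := by
      rw [map_mul, map_inv, he, inv_mul_cancel]
    have h3 : e⁻¹ * (⟨g, hg⟩ : D) ^ n ∈ commutator D := by
      rw [← Abelianization.ker_of]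
      exact h2
    refine ⟨e, heT, (e : K)⁻¹ * g ^ n, ?_, by group⟩
    have h4 : D.subtype (e⁻¹ * (⟨g, hg⟩ : D) ^ n) ∈ Subgroup.map D.subtype (commutator D) :=
      Subgroup.mem_map_of_mem _ h3
    rw [commutator_def, Subgroup.map_commutator, ← MonoidHom.range_eq_map,
      Subgroup.range_subtype] at h4
    exact h4

/-- a soluble group of finite special rank is the isolator of a finitely generated subgroup -/
theorem soluble_isolator [Group.IsSolvable K] (hr : FiniteSpecialRank K) :
    ∃ S : Finset K, ∀ I : Subgroup K, IsIsolated I → (∀ s ∈ S, s ∈ I) → I = ⊤ := by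
  classical
  obtain ⟨r, hr⟩ := hr
  obtain ⟨N, hN⟩ := (Group.IsSolvable.solvable : ∃ n : ℕ, derivedSeries K n = ⊥)
  have key : ∀ j : ℕ, j ≤ N → ∃ S : Finset K, ∀ I : Subgroup K, IsIsolated I →
      (∀ s ∈ S, s ∈ I) → derivedSeries K (N - j) ≤ I := by
    intro j
    induction j with
    | zero =>
      intro _
      refine ⟨∅, fun I _ _ => ?_⟩
      rw [Nat.sub_zero, hN]
      exact bot_le
    | succ j ih =>
      intro hj
      obtain ⟨S, hS⟩ := ih (by omega)
      obtain ⟨T, hTD, hT⟩ := root_generate hr (derivedSeries K (N - (j + 1)))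
      refine ⟨S ∪ T, fun I hI hST => ?_⟩
      have h1 := hS I hI (fun s hs => hST s (Finset.mem_union_left _ hs))
      have h2 : Subgroup.closure (T : Set K) ≤ I := by
        rw [Subgroup.closure_le]
        exact fun t ht => hST t (Finset.mem_union_right _ ht)
      intro g hg
      obtain ⟨n, hn, h, hh, k, hk, hgn⟩ := hT g hg
      refine hI g n hn ?_
      rw [hgn]
      refine I.mul_mem (h2 hh) (h1 ?_)
      have e : N - j = (N - (j + 1)) + 1 := by omega
      rw [e, derivedSeries_succ]
      exact hk
  obtain ⟨S, hS⟩ := key N le_rfl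
  refine ⟨S, fun I hI hSI => ?_⟩
  have := hS I hI hSI
  rw [Nat.sub_self, derivedSeries_zero] at this
  exact top_le_iff.mp this

end

/-- the rank condition passes to subgroups -/
theorem FiniteSpecialRank.subgroup {G : Type*} [Group G] (h : FiniteSpecialRank G) (C : Subgroup G) :
    FiniteSpecialRank C := by
  classical
  obtain ⟨r, hr⟩ := h
  refine ⟨r, fun H hH => ?_⟩
  have hmap : (H.map C.subtype).FG := by
    obtain ⟨S, hS⟩ := hH
    refine ⟨S.image C.subtype, ?_⟩
    rw [Finset.coe_image, ← MonoidHom.map_closure, hS]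
  obtain ⟨S, hSc, hS⟩ := hr _ hmap
  have hSC : ∀ s ∈ S, s ∈ C := by
    intro s hs
    have h1 : s ∈ H.map C.subtype := by
      rw [← hS]; exact Subgroup.subset_closure hs
    obtain ⟨y, _, rfl⟩ := h1
    exact y.2
  refine ⟨S.attach.image (fun s => (⟨s.1, hSC s.1 s.2⟩ : C)), ?_, ?_⟩
  · exact (Finset.card_image_le).trans (by rw [Finset.card_attach]; exact hSc)
  · apply Subgroup.map_injective C.subtype_injective
    rw [MonoidHom.map_closure, ← hS]
    congr 1
    ext x
    constructor
    · rintro ⟨y, hy, rfl⟩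
      rw [Finset.mem_coe, Finset.mem_image] at hy
      obtain ⟨s, _, rfl⟩ := hy
      exact s.2
    · intro hx
      refine ⟨⟨x, hSC x hx⟩, ?_, rfl⟩
      rw [Finset.mem_coe, Finset.mem_image]
      exact ⟨⟨x, hx⟩, Finset.mem_attach _ _, rfl⟩

/-- A total order on a group invariant under left and right multiplication. -/
structure BiOrder (G : Type*) [Group G] where
  le : G → G → Prop
  refl : ∀ a, le a a
  trans : ∀ a b c, le a b → le b c → le a c
  antisymm : ∀ a b, le a b → le b a → a = b
  total : ∀ a b, le a b ∨ le b a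
  mul_left : ∀ a b c, le a b → le (c * a) (c * b)
  mul_right : ∀ a b c, le a b → le (a * c) (b * c)

/-- convex subgroups of an ordered group -/
def IsConvex {G : Type*} [Group G] (o : BiOrder G) (C : Subgroup G) : Prop :=
  ∀ c₁ ∈ C, ∀ c₂ ∈ C, ∀ g : G, o.le c₁ g → o.le g c₂ → g ∈ C

theorem IsConvex.isolated {G : Type*} [Group G] {o : BiOrder G} {C : Subgroup G}
    (hC : IsConvex o C) : IsIsolated C := by
  have pow_ge : ∀ g : G, o.le 1 g → ∀ n : ℕ, 0 < n → o.le g (g ^ n) := by
    intro g hg n hn
    induction n with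
    | zero => omega
    | succ n ih =>
      rcases Nat.eq_zero_or_pos n with rfl | hn'
      · rw [zero_add, pow_one]; exact o.refl g
      · have h1 := ih hn'
        have h2 := o.mul_right 1 g g hg
        rw [one_mul] at h2
        have h3 := o.mul_right g (g ^ n) g h1
        rw [← pow_succ] at h3
        exact o.trans _ _ _ h2 h3
  have pow_le : ∀ g : G, o.le g 1 → ∀ n : ℕ, 0 < n → o.le (g ^ n) g := by
    intro g hg n hn
    induction n with
    | zero => omega
    | succ n ih =>
      rcases Nat.eq_zero_or_pos n with rfl | hn'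
      · rw [zero_add, pow_one]; exact o.refl g
      · have h1 := ih hn'
        have h2 := o.mul_right g 1 g hg
        rw [one_mul] at h2
        have h3 := o.mul_right (g ^ n) g g h1
        rw [← pow_succ] at h3
        exact o.trans _ _ _ h3 h2
  intro g n hn hg
  rcases o.total 1 g with h | h
  · exact hC 1 C.one_mem (g ^ n) hg g h (pow_ge g h n hn)
  · exact hC (g ^ n) hg 1 C.one_mem g (pow_le g h n hn) h

theorem isolated_case {G : Type*} [Group G] [Group.IsSolvable G] (hr : FiniteSpecialRank G)
    (C : Subgroup G) (hC : IsIsolated C) : ∃ H : Subgroup G, H.FG ∧ isolator H = C := by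
  classical
  obtain ⟨S, hS⟩ := soluble_isolator (K := C) (hr.subgroup C)
  refine ⟨Subgroup.closure ((S.image C.subtype : Finset G) : Set G), ⟨_, rfl⟩, ?_⟩
  apply le_antisymm
  · refine sInf_le ⟨?_, hC⟩
    rw [Subgroup.closure_le]
    intro x hx
    rw [Finset.mem_coe, Finset.mem_image] at hx
    obtain ⟨s, _, rfl⟩ := hx
    exact s.2
  · refine le_sInf ?_
    rintro I ⟨hI1, hI2⟩
    have h1 := hS (I.subgroupOf C) ?_ ?_
    · rwa [Subgroup.subgroupOf_eq_top] at h1
    · intro g n hn hg
      rw [Subgroup.mem_subgroupOf] at hg ⊢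
      exact hI2 _ n hn (by simpa using hg)
    · intro s hs
      rw [Subgroup.mem_subgroupOf]
      apply hI1
      refine Subgroup.subset_closure ?_
      rw [Finset.mem_coe, Finset.mem_image]
      exact ⟨s, hs, rfl⟩

/-- Q1 for soluble groups: if `G` is a soluble group of finite special rank, then for every
bi-invariant total order on `G`, every convex subgroup is the isolator of a finitely generated
subgroup; the same holds for all isolated subgroups, whether or not `G` is orderable. -/
theorem result {G : Type*} [Group G] [Group.IsSolvable G] (hr : FiniteSpecialRank G) :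
    (∀ (o : BiOrder G) (C : Subgroup G), IsConvex o C → ∃ H : Subgroup G, H.FG ∧ isolator H = C) ∧
    (∀ C : Subgroup G, IsIsolated C → ∃ H : Subgroup G, H.FG ∧ isolator H = C) :=
  ⟨fun _ C hC => isolated_case hr C hC.isolated, fun C hC => isolated_case hr C hC⟩

end Pool.Agent.Results.MP_25be31_al.SolubleCase
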